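import Pool.Agent.H.MP_385b3e_gt.B
import Pool.Agent.H.MP_19acf5_gt.A
set_option autoImplicit false
open Set Filter Metric Topology

namespace Pool.Agent.H.MP_3ef9ff_gt
open Pool.Agent.H.MP_385b3e_gt
variable {M : Type} [MetricSpace M] [CompactSpace M]

def SZ (M : Type) [MetricSpace M] : Prop :=
  ∀ Z : Set (M × M), IsCompact Z → IsConnected Z → Prod.fst '' Z = Prod.snd '' Z → ∃ p ∈ Z, p.1 = p.2

theorem nosym (h : SZ M) {P : Set (M × M)} (h1 : IsCompact P) (h2 : IsConnected P) {x y : M}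
    (a : (x, y) ∈ P) (b : (y, x) ∈ P) : ∃ p ∈ P, p.1 = p.2 := by
  obtain ⟨p, hp, e⟩ := h (P ∪ Prod.swap '' P) (h1.union (h1.image continuous_swap))
    (h2.union ⟨(x, y), a, _, b, rfl⟩ (h2.image _ continuous_swap.continuousOn)) (by
      ext z
      constructor
      · rintro ⟨p, hp | ⟨q, hq, rfl⟩, rfl⟩
        · exact ⟨p.swap, Or.inr ⟨p, hp, rfl⟩, rfl⟩
        · exact ⟨q, Or.inl hq, rfl⟩
      · rintro ⟨p, hp | ⟨q, hq, rfl⟩, rfl⟩
        · exact ⟨p.swap, Or.inr ⟨p, hp, rfl⟩, rfl⟩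
        · exact ⟨q, Or.inl hq, rfl⟩)
  rcases hp with hp | ⟨q, hq, rfl⟩
  · exact ⟨p, hp, e⟩
  · exact ⟨q, hq, e.symm⟩

theorem link {Z : Set (M × M)} (z1 : IsCompact Z) (z2 : IsConnected Z) (z3 : ∀ p ∈ Z, p.1 ≠ p.2)
    {H : Set M} (h1 : IsCompact H) (h2 : IsConnected H) {q y : M} (hq : q ∈ H)
    (hq1 : q ∈ Prod.fst '' Z) (hq2 : q ∉ Prod.snd '' Z) (hy : y ∈ Prod.snd '' Z) (hy' : y ∉ H) :
    ∃ P : Set (M × M), IsCompact P ∧ IsConnected P ∧ Z ⊆ P ∧ (∀ p ∈ P, p.1 ≠ p.2) ∧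
      ∀ x ∈ H, (x, y) ∈ P := by
  obtain ⟨w, hw, rfl⟩ := hq1
  refine ⟨(Z ∪ {w.1} ×ˢ (Prod.snd '' Z)) ∪ H ×ˢ {y},
    (z1.union (isCompact_singleton.prod (z1.image continuous_snd))).union (h1.prod isCompact_singleton),
    (z2.union (show (Z ∩ {w.1} ×ˢ (Prod.snd '' Z)).Nonempty from ⟨w, hw, rfl, w, hw, rfl⟩)
      (isConnected_singleton.prod (z2.image _ continuous_snd.continuousOn))).union
      ⟨(w.1, y), Or.inr ⟨rfl, hy⟩, hq, rfl⟩ (h2.prod isConnected_singleton),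
    fun p hp => Or.inl (Or.inl hp), ?_, fun x hx => Or.inr ⟨hx, rfl⟩⟩
  rintro p ((hp | ⟨a, b⟩) | ⟨a, b⟩) e
  · exact z3 p hp e
  · rw [mem_singleton_iff] at a
    exact hq2 (a ▸ e ▸ b)
  · rw [mem_singleton_iff] at b
    exact hy' (b ▸ e ▸ a)

theorem shrink (h : SZ M) {Z : Set (M × M)} (z1 : IsCompact Z) (z2 : IsConnected Z)
    (z3 : ∀ p ∈ Z, p.1 ≠ p.2) (z4 : Prod.snd '' Z ⊆ Prod.fst '' Z) :
    ∃ C ⊆ Z, C ≠ Z ∧ IsCompact C ∧ IsConnected C ∧ Prod.snd '' C ⊆ Prod.fst '' C := by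
  have hne : ¬ Prod.fst '' Z ⊆ Prod.snd '' Z := fun e => by
    obtain ⟨p, hp, e⟩ := h Z z1 z2 (e.antisymm z4)
    exact z3 p hp e
  obtain ⟨_, ⟨w, hw, rfl⟩, hw'⟩ := not_subset.1 hne
  obtain ⟨γ, g0, hγ⟩ := pt_gap (z1.image continuous_snd).isClosed hw'
  let Z' : Set (M × M) := Z \ Prod.fst ⁻¹' ball w.1 (γ / 2)
  have c1 : IsCompact Z' := z1.diff (isOpen_ball.preimage continuous_fst)
  have cc : ∀ z, IsCompact (connectedComponentIn Z' z) := fun z =>
    c1.of_isClosed_subset (by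
      by_cases hz : z ∈ Z'
      · rw [connectedComponentIn_eq_image hz]
        exact c1.isClosed.isClosedMap_subtype_val _ isClosed_connectedComponent
      · rw [connectedComponentIn_eq_empty hz]
        exact isClosed_empty) (connectedComponentIn_subset _ _)
  have bump : ∀ z ∈ Z', ∃ q ∈ connectedComponentIn Z' z, q.1 ∈ closedBall w.1 (γ / 2) := by
    intro z hz
    by_contra hc
    obtain ⟨S, T, s1, s2, s3, s4, s5, s6⟩ := MP_19acf5_gt.cutwire c1 (isClosed_singleton (x := z))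
      ((isClosed_closedBall (x := w.1) (ε := γ / 2)).preimage continuous_fst) (by
        rintro a ⟨rfl, -⟩ b hb g
        exact hc ⟨b, g, hb.1⟩)
    have := MP_19acf5_gt.sub_of_closed z2.2 s1
      (s2.union ((isClosed_closedBall (x := w.1) (ε := γ / 2)).preimage continuous_fst)) (by
        rw [disjoint_left]
        rintro a ha (g | g)
        · exact disjoint_left.1 s3 ha g
        · exact disjoint_left.1 s3 ha (s6 ⟨g, s4 ▸ Or.inl ha⟩)) (by
        intro a ha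
        by_cases g : a ∈ Z'
        · rw [← s4] at g
          exact g.imp id Or.inl
        · refine Or.inr (Or.inr (ball_subset_closedBall ?_))
          by_contra g'
          exact g ⟨ha, g'⟩)
    rcases this with g | g
    · have : w ∈ Z' := s4 ▸ Or.inl (g hw)
      exact this.2 (mem_ball_self (half_pos g0))
    · rcases g hz.1 with g | g
      · exact disjoint_left.1 s3 (s5 ⟨rfl, hz⟩) g
      · exact disjoint_left.1 s3 (s5 ⟨rfl, hz⟩) (s6 ⟨g, hz⟩)
  have lk : ∀ z ∈ Z', ∀ y ∈ Prod.snd '' Z, y ∉ Prod.fst '' connectedComponentIn Z' z →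
      ∃ P : Set (M × M), IsCompact P ∧ IsConnected P ∧ Z ⊆ P ∧ (∀ p ∈ P, p.1 ≠ p.2) ∧
      ∀ x ∈ Prod.fst '' connectedComponentIn Z' z, (x, y) ∈ P := by
    intro z hz y hy hy'
    obtain ⟨q, a, b⟩ := bump z hz
    refine link z1 z2 z3 ((cc z).image continuous_fst)
      ((isConnected_connectedComponentIn_iff.2 hz).image _ continuous_fst.continuousOn) ⟨q, a, rfl⟩
      ⟨q, (connectedComponentIn_subset _ _ a).1, rfl⟩ (fun g => ?_) hy hy'
    have := hγ _ g
    rw [mem_closedBall, dist_comm] at b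
    linarith
  have pre : ∀ y ∈ Prod.snd '' Z, ∃ z ∈ Z', z.1 = y := by
    intro y hy
    obtain ⟨z, hz, rfl⟩ := z4 hy
    refine ⟨z, ⟨hz, fun g => ?_⟩, rfl⟩
    have := hγ _ hy
    rw [mem_preimage, mem_ball, dist_comm] at g
    linarith
  have fin : ∀ F : Set M, F.Finite → F ⊆ Prod.snd '' Z →
      ∃ z ∈ Z', F ⊆ Prod.fst '' connectedComponentIn Z' z := by
    intro F hF
    induction F, hF using Set.Finite.induction_on with
    | empty =>
      intro _
      obtain ⟨z, hz, -⟩ := pre _ ⟨w, hw, rfl⟩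
      exact ⟨z, hz, empty_subset _⟩
    | @insert y F _ _ ih =>
      intro hF
      obtain ⟨z, hz, a⟩ := ih ((subset_insert _ _).trans hF)
      have hy := hF (mem_insert _ _)
      by_cases g : y ∈ Prod.fst '' connectedComponentIn Z' z
      · exact ⟨z, hz, insert_subset g a⟩
      obtain ⟨z', hz', e⟩ := pre y hy
      have b : y ∈ Prod.fst '' connectedComponentIn Z' z' := ⟨z', mem_connectedComponentIn hz', e⟩
      refine ⟨z', hz', insert_subset b fun y' hy' => ?_⟩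
      by_contra g'
      obtain ⟨P, p1, p2, p3, p4, p5⟩ := lk z hz y hy g
      obtain ⟨Q, q1, q2, q3, q4, q5⟩ := lk z' hz' y' (hF (mem_insert_of_mem _ hy')) g'
      obtain ⟨p, hp, e⟩ := nosym h (p1.union q1) (p2.union ⟨w, p3 hw, q3 hw⟩ q2)
        (Or.inl (p5 y' (a hy'))) (Or.inr (q5 y b))
      exact hp.elim (fun g => p4 p g e) fun g => q4 p g e
  obtain ⟨z, hz, hB⟩ : ∃ z ∈ Z', Prod.snd '' Z ⊆ Prod.fst '' connectedComponentIn Z' z := by
    by_contra hc
    push Not at hc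
    have : ∀ z : Z', ∃ y ∈ Prod.snd '' Z, ∃ S T : Set (M × M), IsClosed S ∧ IsClosed T ∧
        Disjoint S T ∧ S ∪ T = Z' ∧ z.1 ∈ S ∧ Prod.fst ⁻¹' {y} ∩ Z' ⊆ T := by
      rintro ⟨z, hz⟩
      obtain ⟨y, hy, g⟩ := not_subset.1 (hc z hz)
      obtain ⟨S, T, s1, s2, s3, s4, s5, s6⟩ := MP_19acf5_gt.cutwire c1 (isClosed_singleton (x := z))
        ((isClosed_singleton (x := y)).preimage continuous_fst) (by
          rintro a ⟨rfl, -⟩ b hb g'
          exact g ⟨b, g', hb.1⟩)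
      exact ⟨y, hy, S, T, s1, s2, s3, s4, s5 ⟨rfl, hz⟩, s6⟩
    choose y hy S T s1 s2 s3 s4 s5 s6 using this
    obtain ⟨t, ht⟩ := c1.elim_finite_subcover (fun z => (T z)ᶜ) (fun z => (s2 z).isOpen_compl)
      fun z hz => mem_iUnion.2 ⟨⟨z, hz⟩, disjoint_left.1 (s3 _) (s5 _)⟩
    obtain ⟨z, hz, a⟩ := fin (y '' t) (t.finite_toSet.image _) (by
      rintro _ ⟨i, -, rfl⟩
      exact hy i)
    obtain ⟨i, hi, b⟩ := mem_iUnion₂.1 (ht hz)
    obtain ⟨p, hp, e⟩ := a ⟨i, hi, rfl⟩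
    rcases MP_19acf5_gt.sub_of_closed (isPreconnected_connectedComponentIn (F := Z') (x := z))
      (s1 i) (s2 i) (s3 i) (by rw [s4]; exact connectedComponentIn_subset _ _) with g | g
    · exact disjoint_left.1 (s3 i) (g hp) (s6 i ⟨e, connectedComponentIn_subset _ _ hp⟩)
    · exact b (g (mem_connectedComponentIn hz))
  have sub : connectedComponentIn Z' z ⊆ Z := (connectedComponentIn_subset _ _).trans diff_subset
  refine ⟨_, sub, fun e => ?_, cc z, isConnected_connectedComponentIn_iff.2 hz,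
    (image_mono sub).trans hB⟩
  exact (connectedComponentIn_subset _ _ (e.ge hw)).2 (mem_ball_self (half_pos g0))

theorem davis (h : SZ M) {Z : Set (M × M)} (z1 : IsCompact Z) (z2 : IsConnected Z)
    (z4 : Prod.snd '' Z ⊆ Prod.fst '' Z) : ∃ p ∈ Z, p.1 = p.2 := by
  by_contra hc
  push Not at hc
  obtain ⟨C, hC, hm⟩ := zorn_superset_nonempty
    {C : Set (M × M) | IsCompact C ∧ IsConnected C ∧ Prod.snd '' C ⊆ Prod.fst '' C} (by
      intro c hc1 hc2 hc3
      have : Nonempty c := hc3.to_subtype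
      have dir : DirectedOn (· ⊇ ·) c := fun a ha b hb => (hc2.total ha hb).elim
        (fun e => ⟨a, ha, subset_rfl, e⟩) fun e => ⟨b, hb, e, subset_rfl⟩
      have cl : IsClosed (⋂₀ c) := isClosed_sInter fun C a => (hc1 a).1.isClosed
      have key : ∀ K : Set (M × M), IsClosed K → (∀ C ∈ c, (C ∩ K).Nonempty) → (⋂₀ c ∩ K).Nonempty := by
        intro K k1 k2
        obtain ⟨p, hp⟩ := IsCompact.nonempty_iInter_of_directed_nonempty_isCompact_isClosed
          (fun C : c => C.1 ∩ K) (fun a b => by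
            obtain ⟨d, hd, e, f⟩ := dir a a.2 b b.2
            exact ⟨⟨d, hd⟩, inter_subset_inter_left _ e, inter_subset_inter_left _ f⟩)
          (fun C => k2 C C.2) (fun C => (hc1 C.2).1.inter_right k1)
          fun C => (hc1 C.2).1.isClosed.inter k1
        rw [mem_iInter] at hp
        exact ⟨p, fun C a => (hp ⟨C, a⟩).1, (hp (Classical.arbitrary _)).2⟩
      refine ⟨⋂₀ c, ⟨cl.isCompact, ⟨?_, ?_⟩, ?_⟩, fun s hs => sInter_subset_of_mem hs⟩
      · exact (key univ isClosed_univ fun C a => by simpa using (hc1 a).2.1.1).mono inter_subset_left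
      · rw [isPreconnected_iff_subset_of_fully_disjoint_closed cl]
        intro u v hu hv huv hd
        obtain ⟨U, V, a1, a2, a3, a4, a5⟩ := normal_separation hu hv hd
        obtain ⟨C, b1, b2⟩ : ∃ C ∈ c, C ⊆ U ∪ V := by
          by_contra g
          push Not at g
          obtain ⟨p, d, e⟩ := key (U ∪ V)ᶜ (a1.union a2).isClosed_compl fun C a => by
            obtain ⟨p, d, e⟩ := not_subset.1 (g C a)
            exact ⟨p, d, e⟩
          exact e (union_subset_union a3 a4 (huv d))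
        rcases (hc1 b1).2.1.2.subset_or_subset a1 a2 a5 b2 with g | g
        · exact Or.inl fun p hp => (huv hp).resolve_right fun e =>
            disjoint_left.1 a5 (g (hp C b1)) (a4 e)
        · exact Or.inr fun p hp => (huv hp).resolve_left fun e =>
            disjoint_left.1 a5 (a3 e) (g (hp C b1))
      · rintro _ ⟨p, hp, rfl⟩
        obtain ⟨q, a, b⟩ := key (Prod.fst ⁻¹' {p.2}) (isClosed_singleton.preimage continuous_fst)
          fun C a => by
            obtain ⟨q, d, e⟩ := (hc1 a).2.2 ⟨p, hp C a, rfl⟩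
            exact ⟨q, d, e⟩
        exact ⟨q, a, b⟩) Z ⟨z1, z2, z4⟩
  obtain ⟨D, d1, d2, d3⟩ := shrink h hm.prop.1 hm.prop.2.1 (fun p hp => hc p (hC hp)) hm.prop.2.2
  exact d2 (hm.eq_of_subset d3 d1)

theorem semi (h : SZ M) {ε : ℝ} (hε : 0 < ε) : ∃ δ > 0, ∀ Z : Set (M × M), Z.Nonempty → Cn δ Z →
    Dn δ (Prod.fst '' Z) → ∃ p ∈ Z, dist p.1 p.2 < ε := by
  by_contra hc
  push Not at hc
  choose P h1 h2 h3 h4 using fun k : ℕ => hc (1 / ((k : ℝ) + 1)) (by positivity)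
  obtain ⟨A, a1, a2, a3⟩ := ulim P h1 h2
  obtain ⟨p, hp, e⟩ := davis h a1.isCompact a2 (fun x _ => by
    rw [← (a1.isCompact.image continuous_fst).isClosed.closure_eq, Metric.mem_closure_iff]
    intro r hr
    obtain ⟨k, ⟨c, -⟩, d⟩ := ((a3 _ (half_pos hr)).and (small (half_pos hr))).exists
    obtain ⟨_, ⟨y, hy, rfl⟩, e⟩ := h3 k x
    obtain ⟨z, hz, f⟩ := c y hy
    refine ⟨z.1, ⟨z, hz, rfl⟩, ?_⟩
    have : dist y.1 z.1 ≤ dist y z := le_max_left _ _
    linarith [dist_triangle x y.1 z.1])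
  obtain ⟨k, -, c⟩ := (a3 _ (half_pos hε)).exists
  obtain ⟨q, hq, d⟩ := c p hp
  have : dist p.1 q.1 ≤ dist p q := le_max_left _ _
  have : dist p.2 q.2 ≤ dist p q := le_max_right _ _
  have := h4 k q hq
  have := dist_triangle_left q.1 q.2 p.1
  rw [e] at *
  linarith

end Pool.Agent.H.MP_3ef9ff_gt
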