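import Pool.Agent.H.MP_3ef9ff_gt.A
set_option autoImplicit false
open Set Filter Metric Topology

namespace Pool.Agent.H.MP_3ef9ff_gt
open Pool.Agent.H.MP_385b3e_gt

def kg (a b : ℕ × ℕ) : Prop := a.1 ≤ b.1 + 1 ∧ b.1 ≤ a.1 + 1 ∧ a.2 ≤ b.2 + 1 ∧ b.2 ≤ a.2 + 1

theorem col (g K : ℕ × ℕ → Prop) (c : ℕ × ℕ → ZMod 2) (u0 : ℕ)
    (hv : ∀ u v, ¬ g (u, v) → ¬ g (u, v + 1) → c (u, v) = c (u, v + 1))
    (hh : ∀ u v, ¬ g (u, v) → ¬ g (u + 1, v) → c (u, v) = c (u + 1, v))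
    (h0 : ∀ u, u0 ≤ u → ¬ g (u, 0)) (h0' : c (u0, 0) = 0)
    (h1 : ∀ u, ∀ᶠ v in atTop, ¬ g (u, v) ∧ c (u, v) = 1)
    (k1 : ∀ a, K a → g a) (k2 : ∀ v, g (u0, v) → K (u0, v)) (k3 : ∀ a b, K a → g b → kg a b → K b)
    (u : ℕ) (hu : u0 ≤ u) : ∃ v, K (u, v) := by
  classical
  let e : ℕ × ℕ → ℕ × ℕ → ZMod 2 := fun a b => if K a ∨ K b then c a + c b else 0
  have two : ∀ x : ZMod 2, x + x = 0 := by decide
  have e1 : ∀ a b, (¬ g a → ¬ g b → c a = c b) → (g a → K a) → (g b → K b) → e a b = c a + c b := by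
    intro a b p q r
    by_cases h : K a ∨ K b
    · exact if_pos h
    · rw [show e a b = 0 from if_neg h, p (fun x => h (Or.inl (q x))) fun x => h (Or.inr (r x)), two]
  have blk : ∀ u v, e (u, v) (u, v + 1) + e (u + 1, v) (u + 1, v + 1) =
      e (u, v) (u + 1, v) + e (u, v + 1) (u + 1, v + 1) := by
    intro u v
    by_cases h : ∃ a, K a ∧ (a = (u, v) ∨ a = (u, v + 1) ∨ a = (u + 1, v) ∨ a = (u + 1, v + 1))
    · obtain ⟨a, ha, h⟩ := h
      have q : ∀ b, (b = (u, v) ∨ b = (u, v + 1) ∨ b = (u + 1, v) ∨ b = (u + 1, v + 1)) → g b → K b := by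
        intro b hb gb
        refine k3 a b ha gb ?_
        rcases h with rfl | rfl | rfl | rfl <;> rcases hb with rfl | rfl | rfl | rfl <;>
          (simp only [kg]; omega)
      rw [e1 _ _ (hv u v) (q _ (by simp)) (q _ (by simp)),
        e1 _ _ (hv (u + 1) v) (q _ (by simp)) (q _ (by simp)),
        e1 _ _ (hh u v) (q _ (by simp)) (q _ (by simp)),
        e1 _ _ (hh u (v + 1)) (q _ (by simp)) (q _ (by simp))]
      ring
    · have q : ∀ b, (b = (u, v) ∨ b = (u, v + 1) ∨ b = (u + 1, v) ∨ b = (u + 1, v + 1)) → ¬ K b :=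
        fun b hb x => h ⟨b, x, hb⟩
      simp only [e, q (u, v) (by simp), q (u, v + 1) (by simp), q (u + 1, v) (by simp),
        q (u + 1, v + 1) (by simp), or_self, if_false]
  have tel : ∀ u V, ∑ v ∈ Finset.range V, e (u + 1, v) (u + 1, v + 1) =
      ∑ v ∈ Finset.range V, e (u, v) (u, v + 1) + e (u, 0) (u + 1, 0) + e (u, V) (u + 1, V) := by
    intro u V
    induction V with
    | zero => simp [two]
    | succ V ih =>
      rw [Finset.sum_range_succ, Finset.sum_range_succ, ih]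
      linear_combination blk u V - two (e (u, V) (u, V + 1)) + two (e (u, V) (u + 1, V))
  have key : ∀ u, u0 ≤ u → ∀ᶠ V in atTop, ∑ v ∈ Finset.range V, e (u, v) (u, v + 1) = 1 := by
    intro u hu
    induction u, hu using Nat.le_induction with
    | base =>
      have : ∀ V, ∑ v ∈ Finset.range V, e (u0, v) (u0, v + 1) = c (u0, V) := by
        intro V
        induction V with
        | zero => simp [h0']
        | succ V ih =>
          rw [Finset.sum_range_succ, ih, e1 _ _ (hv u0 V) (k2 _) (k2 _), ← add_assoc, two, zero_add]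
      filter_upwards [h1 u0] with V hV
      rw [this, hV.2]
    | succ u hu ih =>
      filter_upwards [ih, h1 u, h1 (u + 1)] with V a b d
      rw [tel, a, show e (u, 0) (u + 1, 0) = 0 from if_neg fun x => x.elim (fun y => h0 u hu (k1 _ y))
        fun y => h0 (u + 1) (by omega) (k1 _ y),
        show e (u, V) (u + 1, V) = 0 from if_neg fun x => x.elim (fun y => b.1 (k1 _ y))
        fun y => d.1 (k1 _ y)]
      simp
  by_contra hc
  push Not at hc
  obtain ⟨V, hV⟩ := (key u hu).exists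
  rw [Finset.sum_eq_zero fun v _ => if_neg fun x => x.elim (hc _) (hc _)] at hV
  exact zero_ne_one hV

theorem pick {α : Type} {F : Set α} (hF : F.Finite) (P : α → ℕ → Prop)
    (hP : ∀ a n m, n ≤ m → P a m → P a n) (h : ∀ n, ∃ a ∈ F, P a n) : ∃ a ∈ F, ∀ n, P a n := by
  by_contra hc
  push Not at hc
  choose! f hf using hc
  obtain ⟨N, hN⟩ := (hF.image f).bddAbove
  obtain ⟨a, ha, b⟩ := h N
  exact hf a ha (hP a _ _ (hN ⟨a, ha, rfl⟩) b)

theorem hex (g : ℕ × ℕ → Prop) (c : ℕ × ℕ → ZMod 2) (u0 : ℕ)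
    (hv : ∀ u v, ¬ g (u, v) → ¬ g (u, v + 1) → c (u, v) = c (u, v + 1))
    (hh : ∀ u v, ¬ g (u, v) → ¬ g (u + 1, v) → c (u, v) = c (u + 1, v))
    (h0 : ∀ u, u0 ≤ u → ¬ g (u, 0)) (h0' : c (u0, 0) = 0)
    (h1 : ∀ u, ∀ᶠ v in atTop, ¬ g (u, v) ∧ c (u, v) = 1) :
    ∃ w : ℕ → ℕ × ℕ, (∀ k, g (w k) ∧ kg (w k) (w (k + 1))) ∧ Tendsto (fun k => (w k).1) atTop atTop := by
  classical
  let R : ℕ → ℕ × ℕ → Prop := fun n => Nat.rec (fun a => g a ∧ a.1 = u0)
    (fun _ S b => g b ∧ ∃ a, S a ∧ kg a b) n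
  have r0 : ∀ a, R 0 a ↔ g a ∧ a.1 = u0 := fun _ => Iff.rfl
  have r1 : ∀ n b, R (n + 1) b ↔ g b ∧ ∃ a, R n a ∧ kg a b := fun _ _ => Iff.rfl
  have rg : ∀ n a, R n a → g a ∧ a.1 ≤ u0 + n := by
    intro n
    induction n with
    | zero => exact fun a h => ⟨h.1, h.2.le⟩
    | succ n ih =>
      rintro b ⟨h, a, ha, k⟩
      have := (ih a ha).2
      have := k.2.1
      exact ⟨h, by omega⟩
  have fin : ∀ N, {a | g a ∧ a.1 ≤ N}.Finite := by
    intro N
    have : ∀ u, ∃ V, ∀ v, g (u, v) → v ≤ V := fun u => by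
      obtain ⟨V, hV⟩ := eventually_atTop.1 (h1 u)
      exact ⟨V, fun v h => not_lt.1 fun x => (hV v x.le).1 h⟩
    choose V hV using this
    refine ((finite_Iic N).biUnion (t := fun u => {u} ×ˢ Iic (V u))
      fun u _ => (finite_singleton u).prod (finite_Iic _)).subset ?_
    rintro ⟨u, v⟩ ⟨a, b⟩
    exact mem_biUnion (show u ∈ Iic N from b) ⟨rfl, hV u v a⟩
  let E : ℕ → ℕ × ℕ → Prop := fun n a => R n a ∧ ∀ m < n, ¬ R m a
  let st : ℕ × (ℕ × ℕ) → ℕ × (ℕ × ℕ) → Prop := fun a b => b.1 = a.1 + 1 ∧ E b.1 b.2 ∧ kg a.2 b.2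
  have root : ∀ n b, E n b → ∃ a, E 0 a ∧ Relation.ReflTransGen st (0, a) (n, b) := by
    intro n
    induction n with
    | zero => exact fun b h => ⟨b, h, Relation.ReflTransGen.refl⟩
    | succ n ih =>
      intro b h
      obtain ⟨gb, a, ha, k⟩ := h.1
      obtain ⟨x, hx, y⟩ := ih a ⟨ha, fun m hm z => h.2 (m + 1) (by omega) ⟨gb, a, z, k⟩⟩
      exact ⟨x, hx, y.tail ⟨rfl, h, k⟩⟩
  let al : ℕ × (ℕ × ℕ) → ℕ → Prop := fun a n => ∃ d, n ≤ d.1 ∧ Relation.ReflTransGen st a d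
  have mono : ∀ a n m, n ≤ m → al a m → al a n := fun a n m h ⟨d, x, y⟩ => ⟨d, h.trans x, y⟩
  obtain ⟨a0, ha0, s0⟩ := pick (F := {a | E 0 a}) ((fin u0).subset fun a h => rg 0 a h.1)
    (fun a n => al (0, a) n) (fun a => mono _) (by
      intro n
      obtain ⟨v, hv⟩ := col g (fun a => ∃ n, R n a) c u0 hv hh h0 h0' h1 (fun a ⟨n, h⟩ => (rg n a h).1)
        (fun v h => ⟨0, h, rfl⟩) (fun a b ⟨n, h⟩ x y => ⟨n + 1, x, a, h, y⟩) (u0 + n) (by omega)
      obtain ⟨a, ha, b⟩ := root (Nat.find hv) _ ⟨Nat.find_spec hv, fun m hm => Nat.find_min hv hm⟩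
      have := (rg _ _ (Nat.find_spec hv)).2
      exact ⟨a, ha, _, by simp only at this ⊢; omega, b⟩)
  have nxt : ∀ a : ℕ × (ℕ × ℕ), (∀ n, al a n) → ∃ b, st a b ∧ ∀ n, al b n := by
    intro a ha
    refine pick (F := {b | st a b}) (((finite_singleton (a.1 + 1)).prod (fin (u0 + (a.1 + 1)))).subset ?_)
      al mono fun n => ?_
    · rintro b ⟨x, y, -⟩
      exact ⟨x, x ▸ rg _ _ y.1⟩
    · obtain ⟨d, x, y⟩ := ha (n + a.1 + 1)
      rcases y.cases_head with rfl | ⟨b, z, y⟩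
      · omega
      · exact ⟨b, z, d, by omega, y⟩
  choose! nx n1 n2 using nxt
  let W : ℕ → ℕ × (ℕ × ℕ) := fun k => nx^[k] (0, a0)
  have w1 : ∀ k, W (k + 1) = nx (W k) := fun k => Function.iterate_succ_apply' _ _ _
  have w2 : ∀ k, (∀ n, al (W k) n) ∧ (W k).1 = k ∧ E k (W k).2 := by
    intro k
    induction k with
    | zero => exact ⟨s0, rfl, ha0⟩
    | succ k ih =>
      rw [w1]
      have := n1 _ ih.1
      have e : (nx (W k)).1 = k + 1 := by rw [this.1, ih.2.1]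
      exact ⟨n2 _ ih.1, e, e ▸ this.2.1⟩
  refine ⟨fun k => (W k).2, fun k => ⟨(rg _ _ (w2 k).2.2.1).1, ?_⟩, ?_⟩
  · show kg (W k).2 (W (k + 1)).2
    rw [w1]
    exact (n1 _ (w2 k).1).2.2
  · have inj : Function.Injective fun k => (W k).2 := by
      intro k l h
      simp only at h
      rcases lt_trichotomy k l with x | x | x
      · exact ((w2 l).2.2.2 k x (h ▸ (w2 k).2.2.1)).elim
      · exact x
      · exact ((w2 k).2.2.2 l x (h ▸ (w2 l).2.2.1)).elim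
    rw [Filter.tendsto_atTop, ← Nat.cofinite_eq_atTop]
    intro N
    refine ((fin N).preimage inj.injOn).subset fun k hk => ⟨(rg _ _ (w2 k).2.2.1).1, ?_⟩
    simp only [mem_compl_iff, mem_setOf_eq, not_le] at hk
    exact hk.le

end Pool.Agent.H.MP_3ef9ff_gt
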