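import Pool.Agent.H.MP_3ef9ff_gt.B
set_option autoImplicit false
open Set Filter Metric Topology

namespace Pool.Agent.H.MP_3ef9ff_gt
open Pool.Agent.H.MP_385b3e_gt
variable {M : Type} [MetricSpace M] [CompactSpace M]

theorem cn_img {α Y : Type} [MetricSpace Y] {r : α → α → Prop} {G : α → Y} {δ : ℝ} (c : α)
    (h : ∀ a b, Relation.ReflTransGen r c a → r a b → dist (G a) (G b) < δ) :
    Cn δ (G '' {a | Relation.ReflTransGen r c a}) := by
  intro S
  by_contra hc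
  have key : ∀ a, Relation.ReflTransGen r c a → (G a ∈ S ↔ G c ∈ S) := by
    intro a ha
    induction ha with
    | refl => rfl
    | @tail u w hu g ih =>
      rw [← ih]
      constructor
      · intro d
        by_contra e
        exact hc fun _ _ _ _ _ _ => ⟨_, ⟨w, hu.tail g, rfl⟩, _, ⟨u, hu, rfl⟩, d, e, by
          rw [dist_comm]; exact h u w hu g⟩
      · intro d
        by_contra e
        exact hc fun _ _ _ _ _ _ => ⟨_, ⟨u, hu, rfl⟩, _, ⟨w, hu.tail g, rfl⟩, d, e, h u w hu g⟩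
  refine hc ?_
  rintro _ ⟨x, hx, rfl⟩ _ ⟨y, hy, rfl⟩ a b
  exact (b ((key y hy).2 ((key x hx).1 a))).elim

theorem divt {α : Type} {r : α → α → Prop} {φ : α → ℕ} (h : ∀ a b, r a b → φ a ≤ φ b + 1 ∧ φ b ≤ φ a + 1)
    {c a : α} (ha : Relation.ReflTransGen r c a) {z : ℕ}
    (hz : (φ c ≤ z ∧ z ≤ φ a) ∨ (φ a ≤ z ∧ z ≤ φ c)) : ∃ b, Relation.ReflTransGen r c b ∧ φ b = z := by
  induction ha with
  | refl => exact ⟨c, Relation.ReflTransGen.refl, by omega⟩
  | @tail u w hu g ih =>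
    by_cases e : φ w = z
    · exact ⟨w, hu.tail g, e⟩
    · have := h u w g
      exact ih (by omega)

def Tour (p : ℕ → M) : Prop :=
  Tendsto (fun n => dist (p n) (p (n + 1))) atTop (𝓝 0) ∧ ∀ N, ∀ δ > 0, Dn δ (p '' Ici N)

theorem Tour.blk {p : ℕ → M} (h : Tour p) (N : ℕ) {δ : ℝ} (hδ : 0 < δ) :
    ∀ᶠ N' in atTop, Dn δ (p '' Ico N N') := by
  obtain ⟨t, -, ht, hc⟩ := finite_cover_balls_of_compact (isCompact_univ (X := M)) (half_pos hδ)
  have : ∀ x, ∃ n, N ≤ n ∧ dist x (p n) < δ / 2 := fun x => by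
    obtain ⟨_, ⟨n, a, rfl⟩, b⟩ := h.2 N _ (half_pos hδ) x
    exact ⟨n, a, b⟩
  choose f f1 f2 using this
  obtain ⟨B, hB⟩ := (ht.image f).bddAbove
  filter_upwards [eventually_gt_atTop B] with N' hN x
  obtain ⟨y, hy, a⟩ := mem_iUnion₂.1 (hc (mem_univ x))
  refine ⟨_, ⟨f y, ⟨f1 y, (hB ⟨y, hy, rfl⟩).trans_lt hN⟩, rfl⟩, ?_⟩
  rw [mem_ball] at a
  linarith [f2 y, dist_triangle x y (p (f y))]

theorem blocks {p q : ℕ → M} (hp : Tour p) (hq : Tour q) (δ : ℕ → ℝ) (hδ : ∀ n, 0 < δ n) :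
    ∃ N : ℕ → ℕ, StrictMono N ∧ ∀ k n, k ≤ n →
      (∀ u, N n ≤ u → dist (p u) (p (u + 1)) < δ k ∧ dist (q u) (q (u + 1)) < δ k) ∧
      Dn (δ k) (p '' Ico (N n) (N (n + 1))) ∧ Dn (δ k) (q '' Ico (N n) (N (n + 1))) := by
  have h1 : ∀ n, ∀ᶠ a in atTop, ∀ k ≤ n, ∀ u, a ≤ u →
      dist (p u) (p (u + 1)) < δ k ∧ dist (q u) (q (u + 1)) < δ k := by
    intro n
    refine (eventually_all_finite (finite_Iic n)).2 fun k _ => ?_
    exact eventually_forall_ge_atTop.2 ((hp.1.eventually (gt_mem_nhds (hδ k))).and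
      (hq.1.eventually (gt_mem_nhds (hδ k))))
  have h2 : ∀ n a, ∃ b, a < b ∧ (∀ k ≤ n + 1, ∀ u, b ≤ u →
      dist (p u) (p (u + 1)) < δ k ∧ dist (q u) (q (u + 1)) < δ k) ∧
      ∀ k ≤ n, Dn (δ k) (p '' Ico a b) ∧ Dn (δ k) (q '' Ico a b) := by
    intro n a
    exact ((eventually_gt_atTop a).and ((h1 (n + 1)).and ((eventually_all_finite (finite_Iic n)).2
      fun k _ => (hp.blk a (hδ k)).and (hq.blk a (hδ k))))).exists
  choose f f1 f2 f3 using h2
  obtain ⟨a0, ha0⟩ := (h1 0).exists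
  let N : ℕ → ℕ := fun n => Nat.rec a0 f n
  refine ⟨N, strictMono_nat_of_lt_succ fun n => f1 n _, fun k n h => ⟨?_, f3 n _ k h⟩⟩
  cases n with
  | zero => exact ha0 k h
  | succ n => exact f2 n _ k h

def rk (a b : ℕ × ℕ) : Prop :=
  (a.2 = b.2 ∧ (b.1 = a.1 + 1 ∨ a.1 = b.1 + 1)) ∨ (a.1 = b.1 ∧ (b.2 = a.2 + 1 ∨ a.2 = b.2 + 1))

theorem rk_symm {a b : ℕ × ℕ} (x : rk a b) : rk b a := by
  simp only [rk] at x ⊢
  omega

theorem grid (h : SZ M) {p q : ℕ → M} (hp : Tour p) (hq : Tour q) :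
    ∃ w : ℕ → ℕ × ℕ, (∀ k, kg (w k) (w (k + 1))) ∧ Tendsto (fun k => (w k).1) atTop atTop ∧
      Tendsto (fun k => (w k).2) atTop atTop ∧
      Tendsto (fun k => dist (p (w k).1) (q (w k).2)) atTop (𝓝 0) := by
  classical
  let ε : ℕ → ℝ := fun n => 1 / ((n : ℝ) + 1)
  have e0 : ∀ n, 0 < ε n := fun n => Nat.one_div_pos_of_nat
  have e1 : ∀ a b, a ≤ b → ε b ≤ ε a := fun a b h => Nat.one_div_le_one_div h
  choose δ d0 hδ using fun k => semi h (e0 (k + 7))
  obtain ⟨N, n1, n2⟩ := blocks hp hq δ d0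
  have ex : ∀ u, ∃ n, u < N n := fun u => ⟨u + 1, n1.le_apply⟩
  let β : ℕ → ℕ := fun u => Nat.find (ex u)
  have b1 : ∀ u n, β u ≤ n ↔ u < N n := fun u n =>
    ⟨fun a => (Nat.find_spec (ex u)).trans_le (n1.monotone a), fun a => Nat.find_min' _ a⟩
  have b2 : ∀ u n, n < β u ↔ N n ≤ u := fun u n => by rw [← not_le, b1, not_lt]
  have b3 : ∀ u, β u ≤ β (u + 1) ∧ β (u + 1) ≤ β u + 1 := fun u => by
    have a := (b1 u _).1 le_rfl
    have b := (b1 (u + 1) _).1 le_rfl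
    have := n1 (Nat.lt_succ_self (β u))
    exact ⟨(b1 _ _).2 (by omega), (b1 _ _).2 (by simp only [Nat.succ_eq_add_one] at this; omega)⟩
  have b4 : Tendsto β atTop atTop := Filter.tendsto_atTop.2 fun n =>
    (eventually_ge_atTop (N n)).mono fun u a => ((b2 u n).2 a).le
  have b5 : ∀ a b, rk a b → (β a.1 ≤ β b.1 + 1 ∧ β b.1 ≤ β a.1 + 1 ∧ β a.2 = β b.2) ∨
      (β a.2 ≤ β b.2 + 1 ∧ β b.2 ≤ β a.2 + 1 ∧ β a.1 = β b.1) := by
    rintro a b (⟨x, y | y⟩ | ⟨x, y | y⟩)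
    · have := b3 a.1
      rw [x, y]; omega
    · have := b3 b.1
      rw [x, y]; omega
    · have := b3 a.2
      rw [x, y]; omega
    · have := b3 b.2
      rw [x, y]; omega
  let ib : ℕ × ℕ → Prop := fun a => β a.2 ≤ β a.1 + 2 ∧ β a.1 ≤ β a.2 + 2 ∧ 5 ≤ β a.1 ∧
    ε (β a.1) ≤ dist (p a.1) (q a.2)
  let r : ℕ × ℕ → ℕ × ℕ → Prop := fun a b => ib b ∧ rk a b
  have loc : ∀ c, ib c → ∀ a, Relation.ReflTransGen r c a →
      β a.1 ≤ β c.1 + 1 ∧ β c.1 ≤ β a.1 + 1 ∧ β a.2 ≤ β c.2 + 1 ∧ β c.2 ≤ β a.2 + 1 := by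
    intro c hc
    obtain ⟨k, hk⟩ : ∃ k, β c.1 = k + 5 := ⟨β c.1 - 5, by have := hc.2.2.1; omega⟩
    let r' : ℕ × ℕ → ℕ × ℕ → Prop := fun a b => r a b ∧ k + 3 ≤ β b.1 ∧ β b.1 ≤ k + 7
    have s1 : ∀ a, Relation.ReflTransGen r' c a → ib a ∧ k + 3 ≤ β a.1 ∧ β a.1 ≤ k + 7 := by
      intro a ha
      rcases ha.cases_tail with rfl | ⟨b, -, x⟩
      · exact ⟨hc, by omega⟩
      · exact ⟨x.1.1, x.2⟩
    have s2 : ∀ a, Relation.ReflTransGen r' c a → N k ≤ a.1 ∧ N k ≤ a.2 := fun a ha => by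
      obtain ⟨x, y, z⟩ := s1 a ha
      have := x.2.1
      exact ⟨(b2 _ _).1 (by omega), (b2 _ _).1 (by omega)⟩
    have s3 : ∀ a b, Relation.ReflTransGen r' c a → r' a b →
        dist (p a.1) (p b.1) < δ k ∧ dist (q a.2) (q b.2) < δ k := by
      intro a b ha hb
      have x := s2 a ha
      have y := s2 b (ha.tail hb)
      have z := (n2 k k le_rfl).1
      rcases hb.1.2 with ⟨s, t | t⟩ | ⟨s, t | t⟩
      · rw [s, t, dist_self]
        exact ⟨(z _ x.1).1, d0 k⟩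
      · rw [s, t, dist_self, dist_comm]
        exact ⟨(z _ y.1).1, d0 k⟩
      · rw [s, t, dist_self]
        exact ⟨d0 k, (z _ x.2).2⟩
      · rw [s, t, dist_self, dist_comm]
        exact ⟨d0 k, (z _ y.2).2⟩
    have s4 : ∀ a, Relation.ReflTransGen r' c a → ε (k + 7) ≤ dist (p a.1) (q a.2) := fun a ha =>
      (e1 _ _ (s1 a ha).2.2).trans (s1 a ha).1.2.2.2
    have t1 : ∀ a, Relation.ReflTransGen r' c a → ∀ n, k ≤ n →
        ¬ ((c.1 < N n ∧ N (n + 1) ≤ a.1) ∨ (a.1 < N n ∧ N (n + 1) ≤ c.1)) := by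
      intro a ha n hn x
      obtain ⟨_, ⟨b, hb, rfl⟩, y⟩ := hδ k _ (by exact ⟨_, c, Relation.ReflTransGen.refl, rfl⟩)
        (cn_img (G := fun a => (p a.1, q a.2)) c fun a b ha hb => max_lt (s3 a b ha hb).1 (s3 a b ha hb).2)
        ((n2 k n hn).2.1.mono le_rfl (by
          rintro _ ⟨z, ⟨z1, z2⟩, rfl⟩
          obtain ⟨b, hb, rfl⟩ := divt (φ := Prod.fst) (fun a b g => by
            have := g.1.2
            simp only [rk] at this
            omega) ha (z := z) (by omega)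
          exact ⟨_, ⟨b, hb, rfl⟩, rfl⟩))
      exact y.not_ge (s4 b hb)
    have t2 : ∀ a, Relation.ReflTransGen r' c a → ∀ n, k ≤ n →
        ¬ ((c.2 < N n ∧ N (n + 1) ≤ a.2) ∨ (a.2 < N n ∧ N (n + 1) ≤ c.2)) := by
      intro a ha n hn x
      obtain ⟨_, ⟨b, hb, rfl⟩, y⟩ := hδ k _ (by exact ⟨_, c, Relation.ReflTransGen.refl, rfl⟩)
        (cn_img (G := fun a => (q a.2, p a.1)) c fun a b ha hb => max_lt (s3 a b ha hb).2 (s3 a b ha hb).1)
        ((n2 k n hn).2.2.mono le_rfl (by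
          rintro _ ⟨z, ⟨z1, z2⟩, rfl⟩
          obtain ⟨b, hb, rfl⟩ := divt (φ := Prod.snd) (fun a b g => by
            have := g.1.2
            simp only [rk] at this
            omega) ha (z := z) (by omega)
          exact ⟨_, ⟨b, hb, rfl⟩, rfl⟩))
      rw [dist_comm] at y
      exact y.not_ge (s4 b hb)
    have t3 : ∀ a, Relation.ReflTransGen r' c a →
        β a.1 ≤ β c.1 + 1 ∧ β c.1 ≤ β a.1 + 1 ∧ β a.2 ≤ β c.2 + 1 ∧ β c.2 ≤ β a.2 + 1 := by
      intro a ha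
      have x := s1 a ha
      have y := x.1.2.1
      have y' := hc.2.1
      have u1 := t1 a ha (β c.1) (by omega)
      have u2 := t1 a ha (β a.1) (by omega)
      have u3 := t2 a ha (β c.2) (by omega)
      have u4 := t2 a ha (β a.2) (by omega)
      simp only [← b1, ← b2] at u1 u2 u3 u4
      omega
    have t4 : ∀ a, Relation.ReflTransGen r c a → Relation.ReflTransGen r' c a := by
      intro a ha
      induction ha with
      | refl => exact Relation.ReflTransGen.refl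
      | @tail u w _ g ih =>
        have := t3 u ih
        have := b5 u w g.2
        exact ih.tail ⟨g, by omega⟩
    exact fun a ha => t3 a (t4 a ha)
  let g : ℕ × ℕ → Prop := fun a => β a.2 ≤ β a.1 + 2 ∧ β a.1 ≤ β a.2 + 2 ∧ ¬ ib a
  let C : ℕ × ℕ → Prop := fun a => β a.1 + 3 ≤ β a.2 ∨
    (ib a ∧ ∃ b, Relation.ReflTransGen r a b ∧ β b.2 = β b.1 + 2)
  have hC : ∀ a b, rk a b → ¬ g a → ¬ g b → C a → C b := by
    intro a b x ga gb y
    have z := b5 a b x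
    clear ga
    have x' : rk b a := rk_symm x
    by_cases u : β b.1 + 3 ≤ β b.2
    · exact Or.inl u
    rcases y with y | ⟨y, d, y1, y2⟩
    · have : ib b := by
        by_contra s
        refine gb ⟨?_, ?_, s⟩ <;> (clear gb s; omega)
      clear gb
      exact Or.inr ⟨this, b, Relation.ReflTransGen.refl, by clear this; omega⟩
    · have := loc a y d y1
      have : ib b := by
        by_contra s
        refine gb ⟨?_, ?_, s⟩ <;> (clear gb s y1 y; omega)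
      exact Or.inr ⟨this, d, y1.head ⟨y, x'⟩, y2⟩
  have hc : ∀ a b, rk a b → rk b a → ¬ g a → ¬ g b →
      (if C a then (1 : ZMod 2) else 0) = if C b then 1 else 0 := fun a b x y s t =>
    if_congr ⟨hC a b x s t, hC b a y t s⟩ rfl rfl
  have z0 : β 0 ≤ 1 := (b1 _ _).2 ((Nat.zero_le _).trans_lt (n1 Nat.zero_lt_one))
  obtain ⟨w, w1, w2⟩ := hex g (fun a => if C a then 1 else 0) (N 3)
    (fun u v => hc _ _ (by simp [rk]) (by simp [rk])) (fun u v => hc _ _ (by simp [rk]) (by simp [rk]))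
    (fun u hu x => by
      have := (b2 _ _).2 hu
      have := x.2.1
      simp only at this
      omega) (if_neg (by
      have := (b2 (N 3) 3).2 le_rfl
      rintro (x | ⟨x, -⟩)
      · simp only at x
        omega
      · have := x.2.1
        simp only at this
        omega)) (fun u => by
      filter_upwards [b4.eventually_ge_atTop (β u + 3)] with v hv
      refine ⟨fun x => ?_, if_pos (Or.inl hv)⟩
      have := x.1
      simp only at this
      omega)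
  have w3 := b4.comp w2
  refine ⟨w, fun k => (w1 k).2, w2, Filter.tendsto_atTop.2 fun n => ?_, ?_⟩
  · filter_upwards [w3.eventually_ge_atTop (n + 3)] with k hk
    have := (w1 k).1.2.1
    simp only [Function.comp] at hk
    exact n1.le_apply.trans ((b2 _ _).1 (by omega))
  · refine squeeze_zero' (Eventually.of_forall fun _ => dist_nonneg) ?_
      (tendsto_one_div_add_atTop_nhds_zero_nat.comp w3)
    filter_upwards [w3.eventually_ge_atTop 5] with k hk
    by_contra x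
    exact (w1 k).1.2.2 ⟨(w1 k).1.1, (w1 k).1.2.1, hk, (not_le.1 x).le⟩

end Pool.Agent.H.MP_3ef9ff_gt
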