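import Pool.Agent.H.MP_3ef9ff_gt.C
set_option autoImplicit false
open Set Filter Metric Topology

namespace Pool.Agent.H.MP_3ef9ff_gt
open Pool.Agent.H.MP_385b3e_gt

theorem interp {E : Type} [NormedAddCommGroup E] [NormedSpace ℝ E] (z : ℕ → E) :
    ∃ I : ℝ → E, Continuous I ∧ ∀ k : ℕ, ∀ τ : ℝ, k ≤ τ → τ ≤ k + 1 →
      I τ = z k + (τ - k) • (z (k + 1) - z k) := by
  let J : ℕ → ℝ → E := fun N τ => z 0 + ∑ k ∈ Finset.range N, max 0 (min (τ - k) 1) • (z (k + 1) - z k)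
  have j1 : ∀ N, Continuous (J N) := fun N => by
    simp only [J]
    fun_prop
  have j2 : ∀ (N : ℕ) (τ : ℝ), τ ≤ N → ∀ N', N ≤ N' → J N' τ = J N τ := by
    intro N τ h N' hN
    induction N', hN using Nat.le_induction with
    | base => rfl
    | succ n hn ih =>
      have : (N : ℝ) ≤ n := by exact_mod_cast hn
      rw [← ih]
      simp only [J]
      rw [Finset.sum_range_succ, max_eq_left ((min_le_left _ _).trans (by linarith)), zero_smul,
        add_zero]
  have j3 : ∀ (N : ℕ) (τ : ℝ), N ≤ τ → J N τ = z N := by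
    intro N τ
    induction N with
    | zero => simp [J]
    | succ n ih =>
      intro h
      push_cast at h
      have := ih (by linarith)
      simp only [J] at this ⊢
      rw [Finset.sum_range_succ, ← add_assoc, this, min_eq_right (by linarith), max_eq_right zero_le_one,
        one_smul, add_sub_cancel]
  have j4 : ∀ (N : ℕ) (τ : ℝ), τ ≤ N → J ⌈τ⌉₊ τ = J N τ := fun N τ h =>
    (j2 _ τ (Nat.le_ceil τ) N (Nat.ceil_le.2 h)).symm
  refine ⟨fun τ => J ⌈τ⌉₊ τ, continuous_iff_continuousAt.2 fun τ => ?_, fun k τ h1 h2 => ?_⟩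
  · refine (j1 (⌈τ⌉₊ + 1)).continuousAt.congr ?_
    filter_upwards [Iio_mem_nhds (show τ < ((⌈τ⌉₊ + 1 : ℕ) : ℝ) by
      push_cast; linarith [Nat.le_ceil τ])] with σ hσ
    exact (j4 _ σ (le_of_lt hσ)).symm
  · show J ⌈τ⌉₊ τ = _
    rw [j4 (k + 1) τ (by push_cast; exact h2)]
    have := j3 k τ h1
    simp only [J] at this ⊢
    rw [Finset.sum_range_succ, ← add_assoc, this, min_eq_left (by linarith), max_eq_right (by linarith)]

theorem tourX (X : Type) [MetricSpace X] [CompactSpace X] [ConnectedSpace X] : ∃ a : ℕ → X, Tour a := by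
  classical
  have chain : ∀ δ > 0, ∀ x y : X, ∃ (L : ℕ) (c : ℕ → X), c 0 = x ∧ c L = y ∧
      ∀ i < L, dist (c i) (c (i + 1)) < δ := by
    intro δ hδ x y
    by_contra hc
    obtain ⟨u, -, w, -, ⟨L, c, a, b, d⟩, e, f⟩ := cn_pre isPreconnected_univ hδ
      {y | ∃ (L : ℕ) (c : ℕ → X), c 0 = x ∧ c L = y ∧ ∀ i < L, dist (c i) (c (i + 1)) < δ} x (mem_univ _)
      y (mem_univ _) ⟨0, fun _ => x, rfl, rfl, fun _ h => by omega⟩ hc
    refine e ⟨L + 1, fun i => if i ≤ L then c i else w, by simp [a], by simp, fun i hi => ?_⟩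
    by_cases g : i + 1 ≤ L
    · simp only [if_pos g, if_pos (show i ≤ L by omega)]
      exact d i g
    · simp only [if_neg g, if_pos (show i ≤ L by omega)]
      rwa [show i = L by omega, b]
  let d : ℕ → X := fun n => TopologicalSpace.denseSeq X n.unpair.1
  choose L c c0 c1 c2 using fun n : ℕ => chain (1 / ((n : ℝ) + 1)) Nat.one_div_pos_of_nat (d n) (d (n + 1))
  let nx : ℕ × ℕ → ℕ × ℕ := fun s => if s.2 < L s.1 then (s.1, s.2 + 1) else (s.1 + 1, 0)
  let W : ℕ → ℕ × ℕ := fun k => nx^[k] (0, 0)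
  have w1 : ∀ k, W (k + 1) = nx (W k) := fun k => Function.iterate_succ_apply' _ _ _
  have w2 : ∀ k, (W k).2 ≤ L (W k).1 := by
    intro k
    induction k with
    | zero => exact Nat.zero_le _
    | succ k ih =>
      rw [w1]
      simp only [nx]
      split_ifs with h
      · exact h
      · exact Nat.zero_le _
  have w3 : Monotone fun k => (W k).1 := monotone_nat_of_le_succ fun k => by
    rw [w1]
    simp only [nx]
    split_ifs <;> simp
  have w4 : ∀ n, ∃ k, W k = (n, 0) := by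
    intro n
    induction n with
    | zero => exact ⟨0, rfl⟩
    | succ n ih =>
      have : ∀ i ≤ L n, ∃ k, W k = (n, i) := by
        intro i
        induction i with
        | zero => exact fun _ => ih
        | succ i ih' =>
          intro h
          obtain ⟨k, hk⟩ := ih' (by omega)
          exact ⟨k + 1, by rw [w1, hk]; exact if_pos h⟩
      obtain ⟨k, hk⟩ := this _ le_rfl
      exact ⟨k + 1, by rw [w1, hk]; exact if_neg (lt_irrefl _)⟩
  have w5 : Tendsto (fun k => (W k).1) atTop atTop := tendsto_atTop_atTop_of_monotone w3 fun n => by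
    obtain ⟨k, hk⟩ := w4 n
    exact ⟨k, by rw [hk]⟩
  refine ⟨fun k => c (W k).1 (W k).2, ?_, fun N δ hδ x => ?_⟩
  · refine squeeze_zero (fun _ => dist_nonneg) (fun k => ?_)
      (tendsto_one_div_add_atTop_nhds_zero_nat.comp w5)
    show dist (c (W k).1 (W k).2) (c (W (k + 1)).1 (W (k + 1)).2) ≤ 1 / (((W k).1 : ℝ) + 1)
    rw [w1]
    simp only [nx]
    split_ifs with h
    · exact (c2 _ _ h).le
    · rw [show (W k).2 = L (W k).1 from le_antisymm (w2 k) (not_lt.1 h), c1, c0, dist_self]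
      positivity
  · obtain ⟨m, hm⟩ := (TopologicalSpace.denseRange_denseSeq X).exists_dist_lt x hδ
    obtain ⟨k, hk⟩ := w4 (Nat.pair m ((W N).1 + 1))
    refine ⟨_, ⟨k, mem_Ici.2 (not_lt.1 fun g => ?_), rfl⟩, ?_⟩
    · have := w3 g.le
      have := Nat.right_le_pair m ((W N).1 + 1)
      simp only [hk] at *
      omega
    · simp only [hk, c0, d, Nat.unpair_pair]
      exact hm

theorem part {Y : Type} [MetricSpace Y] {l : ℝ → Y} (hl : Continuous l) : ∃ t : ℕ → ℝ, Monotone t ∧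
    (∀ v, 0 ≤ t v) ∧ Tendsto t atTop atTop ∧
    ∀ r > 0, ∀ᶠ v in atTop, ∀ s ∈ Icc (t v) (t (v + 1)), dist (l s) (l (t v)) < r := by
  have : ∀ n : ℕ, ∃ δ > 0, δ ≤ 1 ∧ ∀ s ∈ Icc (0 : ℝ) (n + 2), ∀ s' ∈ Icc (0 : ℝ) (n + 2),
      dist s s' ≤ δ → dist (l s) (l s') < 1 / ((n : ℝ) + 1) := by
    intro n
    obtain ⟨δ, a, b⟩ := Metric.uniformContinuousOn_iff.1
      (isCompact_Icc.uniformContinuousOn_of_continuous (s := Icc (0 : ℝ) (n + 2)) hl.continuousOn) _
      (Nat.one_div_pos_of_nat (n := n))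
    exact ⟨min 1 (δ / 2), by positivity, min_le_left _ _, fun s hs s' hs' h =>
      b s hs s' hs' (by linarith [min_le_right 1 (δ / 2)])⟩
  choose δ d0 d1 d2 using this
  let t : ℕ → ℝ := fun v => Nat.rec 0 (fun _ s => s + δ ⌊s⌋₊) v
  have t1 : ∀ v, t (v + 1) = t v + δ ⌊t v⌋₊ := fun _ => rfl
  have t2 : Monotone t := monotone_nat_of_le_succ fun v => by
    rw [t1]
    linarith [d0 ⌊t v⌋₊]
  have t3 : ∀ v, 0 ≤ t v := fun v => t2 (Nat.zero_le v)
  have t4 : Tendsto t atTop atTop := tendsto_atTop_atTop_of_monotone t2 fun b => by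
    by_contra hc
    push Not at hc
    obtain ⟨n, -, hn⟩ := (finite_Iic ⌊b⌋₊).exists_minimalFor δ _ ⟨0, Nat.zero_le _⟩
    have : ∀ v : ℕ, v * δ n ≤ t v := by
      intro v
      induction v with
      | zero => simp [t]
      | succ v ih =>
        have : δ n ≤ δ ⌊t v⌋₊ := by
          by_contra g
          exact g (hn (Nat.floor_le_floor (hc v).le) (not_le.1 g).le)
        rw [t1]
        push_cast
        linarith
    obtain ⟨v, hv⟩ := exists_nat_gt (b / δ n)
    rw [div_lt_iff₀ (d0 n)] at hv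
    linarith [this v, hc v]
  refine ⟨t, t2, t3, t4, fun r hr => ?_⟩
  filter_upwards [((tendsto_one_div_add_atTop_nhds_zero_nat.comp tendsto_nat_floor_atTop).comp
    t4).eventually (gt_mem_nhds hr)] with v hv s hs
  have a := Nat.lt_floor_add_one (t v)
  have b := d1 ⌊t v⌋₊
  have c := t3 v
  rw [t1] at hs
  refine (d2 ⌊t v⌋₊ s ⟨by linarith [hs.1], by linarith [hs.2]⟩ _ ⟨c, by linarith⟩ ?_).trans hv
  rw [Real.dist_eq, abs_of_nonneg (by linarith [hs.1])]
  linarith [hs.2]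

theorem assemble {X P : Type} [MetricSpace X] [CompactSpace X] [MetricSpace P] {i0 : X → P} {Γ : ℝ → P}
    {h : P → ℝ} (c1 : Continuous i0) (c2 : Function.Injective i0) (c3 : ContinuousOn Γ (Ici 0))
    (c4 : Continuous h) (h1 : ∀ x, h (i0 x) = 0) (h2 : ∀ τ, 0 ≤ τ → h (Γ τ) = 1 / (τ + 1))
    (hA : ∀ r > 0, ∀ᶠ τ in atTop, ∃ x, dist (Γ τ) (i0 x) < r)
    (hB : ∀ x, ∀ r > 0, ∃ τ, 0 ≤ τ ∧ dist (i0 x) (Γ τ) < r) :
    IsCompact (range i0 ∪ Γ '' Ici 0) ∧ ∃ i : X → ↥(range i0 ∪ Γ '' Ici 0), (∀ x, (i x).1 = i0 x) ∧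
      IsEmbedding i ∧ Dense (range i)ᶜ ∧ Nonempty (↥((range i)ᶜ) ≃ₜ ↥(Ici (0 : ℝ))) := by
  have hK := isCompact_range c1
  let i : X → ↥(range i0 ∪ Γ '' Ici 0) := fun x => ⟨i0 x, Or.inl ⟨x, rfl⟩⟩
  have nm : ∀ τ (hτ : 0 ≤ τ), (⟨Γ τ, Or.inr ⟨τ, hτ, rfl⟩⟩ : ↥(range i0 ∪ Γ '' Ici 0)) ∈ (range i)ᶜ := by
    rintro τ hτ ⟨x, hx⟩
    have := congrArg (fun w => h w.1) hx
    simp only [i, h1, h2 τ hτ] at this
    exact this.not_lt (by positivity)
  have rep : ∀ w : ↥((range i)ᶜ), ∃ τ, 0 ≤ τ ∧ Γ τ = w.1.1 := by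
    rintro ⟨⟨w, ⟨x, rfl⟩ | hw⟩, hw'⟩
    · exact (hw' ⟨x, rfl⟩).elim
    · exact hw
  have inv : ∀ τ, 0 ≤ τ → 1 / h (Γ τ) - 1 = τ := fun τ hτ => by
    rw [h2 τ hτ, one_div_one_div, add_sub_cancel_right]
  refine ⟨?_, i, fun _ => rfl, ((c1.subtype_mk _).isClosedEmbedding fun a b e =>
    c2 (congrArg Subtype.val e)).isEmbedding, fun w => ?_, ⟨⟨⟨fun w => ⟨1 / h w.1.1 - 1, ?_⟩,
      fun τ => ⟨⟨Γ τ, Or.inr ⟨τ, τ.2, rfl⟩⟩, nm τ τ.2⟩, fun w => ?_, fun τ => Subtype.ext (inv τ τ.2)⟩,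
      ?_, ?_⟩⟩⟩
  · refine isCompact_of_finite_subcover fun U hU hc => ?_
    obtain ⟨s, hs⟩ := hK.elim_finite_subcover U hU (subset_union_left.trans hc)
    obtain ⟨r, r0, hr⟩ := hK.exists_thickening_subset_open (isOpen_biUnion fun a _ => hU a) hs
    obtain ⟨T, hT⟩ := eventually_atTop.1 (hA r r0)
    obtain ⟨s', hs'⟩ := ((isCompact_Icc (a := (0 : ℝ)) (b := T)).image_of_continuousOn
      (c3.mono Icc_subset_Ici_self)).elim_finite_subcover U hU
      ((image_mono Icc_subset_Ici_self).trans (subset_union_right.trans hc))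
    classical
    refine ⟨s ∪ s', ?_⟩
    rw [Finset.set_biUnion_union]
    rintro _ (hw | ⟨τ, hτ, rfl⟩)
    · exact Or.inl (hs hw)
    · rcases le_total τ T with g | g
      · exact Or.inr (hs' ⟨τ, ⟨hτ, g⟩, rfl⟩)
      · obtain ⟨x, hx⟩ := hT τ g
        exact Or.inl (hr (mem_thickening_iff.2 ⟨_, ⟨x, rfl⟩, hx⟩))
  · by_cases g : w ∈ range i
    · obtain ⟨x, rfl⟩ := g
      refine Metric.mem_closure_iff.2 fun r hr => ?_
      obtain ⟨τ, a, b⟩ := hB x r hr
      exact ⟨_, nm τ a, b⟩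
    · exact subset_closure g
  · obtain ⟨τ, a, b⟩ := rep w
    rw [← b, inv τ a]
    exact a
  · obtain ⟨τ, a, b⟩ := rep w
    refine Subtype.ext (Subtype.ext ?_)
    show Γ (1 / h w.1.1 - 1) = w.1.1
    rw [← b, inv τ a]
  · refine Continuous.subtype_mk (Continuous.sub (continuous_const.div (by fun_prop) fun w => ?_)
      continuous_const) _
    obtain ⟨τ, a, b⟩ := rep w
    rw [← b, h2 τ a]
    positivity
  · exact ((continuousOn_iff_continuous_restrict.1 c3).subtype_mk _).subtype_mk _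

theorem unif {M Y : Type} [MetricSpace M] [CompactSpace M] [MetricSpace Y] [CompactSpace Y] {j : M → Y}
    (hj : IsEmbedding j) {r : ℝ} (hr : 0 < r) : ∃ γ > 0, ∀ a b, dist (j a) (j b) < γ → dist a b < r := by
  obtain ⟨γ, g0, hγ⟩ := gap (X := Y × Y) (((isClosed_le (continuous_const (y := r))
    (continuous_dist (α := M))).isCompact.image (hj.continuous.prodMap hj.continuous)).isClosed)
    isClosed_diagonal (by
      rw [disjoint_left]
      rintro _ ⟨⟨a, b⟩, h, rfl⟩ e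
      have : a = b := hj.injective e
      simp only [this, mem_setOf_eq, dist_self] at h
      linarith)
  refine ⟨γ, g0, fun a b h => not_le.1 fun g => ?_⟩
  have := hγ _ ⟨(a, b), g, rfl⟩ (j b, j b) rfl
  simp only [Prod.map, Prod.dist_eq, dist_self, max_eq_left dist_nonneg] at this
  linarith

theorem seqs {M : Type} [MetricSpace M] [CompactSpace M] [Nonempty M] (hM : SZ M) {X : Type}
    [MetricSpace X] [CompactSpace X] [ConnectedSpace X] {f : X → M} (hf : Continuous f)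
    (hf' : Function.Surjective f) {Y : Type} [MetricSpace Y] [CompactSpace Y] {j : M → Y}
    (hj : IsEmbedding j) {l : ℝ → Y} (hl : Continuous l)
    (l3 : ∀ r > 0, ∀ᶠ t in atTop, ∃ m, dist (l t) (j m) < r)
    (l4 : ∀ m, ∀ r > 0, ∀ T, ∃ t, T ≤ t ∧ dist (j m) (l t) < r) :
    ∃ (x : ℕ → X) (s : ℕ → ℝ), Tendsto (fun k => dist (x k) (x (k + 1))) atTop (𝓝 0) ∧
      (∀ y, ∀ r > 0, ∀ N, ∃ k, N ≤ k ∧ dist y (x k) < r) ∧ (∀ k, 0 ≤ s k) ∧ Tendsto s atTop atTop ∧
      ∀ r > 0, ∀ᶠ k in atTop, ∀ σ ∈ uIcc (s k) (s (k + 1)), dist (l σ) (j (f (x k))) < r := by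
  obtain ⟨a, ha⟩ := tourX X
  obtain ⟨t, t2, t3, t4, t5⟩ := part hl
  have z : ∀ {u : ℕ → ℝ}, (∀ n, 0 ≤ u n) → (∀ r > 0, ∀ᶠ n in atTop, u n < r) →
      Tendsto u atTop (𝓝 0) := fun h0 h => tendsto_order.2
    ⟨fun b hb => Eventually.of_forall fun n => hb.trans_le (h0 n), h⟩
  have uf := Metric.uniformContinuous_iff.1 (CompactSpace.uniformContinuous_of_continuous hf)
  have uj := Metric.uniformContinuous_iff.1 (CompactSpace.uniformContinuous_of_continuous hj.continuous)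
  have hp : Tour (f ∘ a) := by
    refine ⟨z (fun _ => dist_nonneg) fun r hr => ?_, fun N r hr m => ?_⟩
    · obtain ⟨δ, d0, hδ⟩ := uf r hr
      exact (ha.1.eventually (gt_mem_nhds d0)).mono fun n h => hδ h
    · obtain ⟨δ, d0, hδ⟩ := uf r hr
      obtain ⟨y, rfl⟩ := hf' m
      obtain ⟨_, ⟨n, b, rfl⟩, c⟩ := ha.2 N δ d0 y
      exact ⟨_, ⟨n, b, rfl⟩, hδ c⟩
  have : ∀ v, ∃ m, ∀ m', dist (l (t v)) (j m) ≤ dist (l (t v)) (j m') := fun v => by
    obtain ⟨m, -, h⟩ := isCompact_univ.exists_isMinOn univ_nonempty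
      (continuous_const.dist hj.continuous : Continuous fun m => dist (l (t v)) (j m)).continuousOn
    exact ⟨m, fun m' => h (mem_univ m')⟩
  choose q hq using this
  have q1 : ∀ r > 0, ∀ᶠ v in atTop, dist (l (t v)) (j (q v)) < r := fun r hr =>
    (t4.eventually (l3 r hr)).mono fun v ⟨m, h⟩ => (hq v m).trans_lt h
  have hq' : Tour q := by
    refine ⟨z (fun _ => dist_nonneg) fun r hr => ?_, fun N r hr m => ?_⟩
    · obtain ⟨γ, g0, hγ⟩ := unif hj hr
      have g3 : 0 < γ / 3 := by linarith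
      filter_upwards [q1 _ g3, (tendsto_add_atTop_nat 1).eventually (q1 _ g3), t5 _ g3] with v b c d
      have := d _ ⟨t2 (Nat.le_succ v), le_rfl⟩
      have := dist_triangle4 (j (q v)) (l (t v)) (l (t (v + 1))) (j (q (v + 1)))
      rw [dist_comm] at b
      rw [dist_comm (l (t v))] at this
      exact hγ _ _ (by linarith)
    · obtain ⟨γ, g0, hγ⟩ := unif hj hr
      have g3 : 0 < γ / 3 := by linarith
      obtain ⟨V, hV⟩ := eventually_atTop.1 (((q1 _ g3).and (t5 _ g3)).and (eventually_ge_atTop N))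
      obtain ⟨σ, b, c⟩ := l4 m _ g3 (t V)
      have ex : ∃ v, σ < t (v + 1) := (((tendsto_add_atTop_nat 1).eventually
        (t4.eventually_gt_atTop σ))).exists
      have e1 := Nat.find_spec ex
      have e2 : V ≤ Nat.find ex := by
        by_contra g
        exact (t2 (show Nat.find ex + 1 ≤ V by omega)).not_gt (b.trans_lt e1)
      have e3 : t (Nat.find ex) ≤ σ := by
        rcases e2.eq_or_lt with g | g
        · exact g ▸ b
        · have := Nat.find_min ex (show Nat.find ex - 1 < Nat.find ex by omega)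
          rwa [show Nat.find ex - 1 + 1 = Nat.find ex by omega, not_lt] at this
      obtain ⟨⟨d, e⟩, g⟩ := hV _ e2
      refine ⟨_, ⟨_, g, rfl⟩, hγ _ _ ?_⟩
      have := e σ ⟨e3, e1.le⟩
      linarith [dist_triangle4 (j m) (l σ) (l (t (Nat.find ex))) (j (q (Nat.find ex)))]
  obtain ⟨w, w1, w2, w3, w4⟩ := grid hM hp hq'
  have sh : ∀ {P : ℕ → Prop}, (∀ᶠ v in atTop, P v) → ∀ᶠ v in atTop, P (v - 1) ∧ P v := fun h =>
    ((tendsto_sub_atTop_nat 1).eventually h).and h
  refine ⟨fun k => a (w k).1, fun k => t (w k).2, z (fun _ => dist_nonneg) fun r hr => ?_,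
    fun y r hr N => ?_, fun k => t3 _, t4.comp w3, fun r hr => ?_⟩
  · filter_upwards [w2.eventually (sh (ha.1.eventually (gt_mem_nhds hr)))] with k hk
    obtain ⟨b, c, -⟩ := w1 k
    rcases lt_trichotomy (w k).1 (w (k + 1)).1 with g | g | g
    · rw [show (w (k + 1)).1 = (w k).1 + 1 by omega]
      exact hk.2
    · rwa [g, dist_self]
    · have := hk.1
      rwa [show (w k).1 - 1 + 1 = (w k).1 by omega, show (w k).1 - 1 = (w (k + 1)).1 by omega,
        dist_comm] at this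
  · obtain ⟨_, ⟨n, b, rfl⟩, c⟩ := ha.2 (w N).1 r hr y
    have : ∀ k, N ≤ k → n ≤ (w k).1 → ∃ k, N ≤ k ∧ (w k).1 = n := by
      intro k hk
      induction k, hk using Nat.le_induction with
      | base => exact fun g => ⟨N, le_rfl, le_antisymm b g⟩
      | succ k hk ih =>
        intro g
        by_cases e : n ≤ (w k).1
        · exact ih e
        · have := (w1 k).2.1
          exact ⟨k + 1, by omega, by omega⟩
    obtain ⟨k, d, e⟩ := ((eventually_ge_atTop N).and (w2.eventually_ge_atTop n)).exists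
    obtain ⟨k, d, e⟩ := this k d e
    exact ⟨k, d, by simpa only [e] using c⟩
  · have g4 : 0 < r / 4 := by linarith
    obtain ⟨δ, d0, hδ⟩ := uj _ g4
    filter_upwards [w3.eventually (sh (t5 _ g4)), w3.eventually (q1 _ g4),
      w4.eventually (gt_mem_nhds d0)] with k b c d σ hσ
    have := hδ d
    have : dist (l σ) (l (t (w k).2)) < r / 2 := by
      obtain ⟨-, -, e, e'⟩ := w1 k
      rcases lt_trichotomy (w k).2 (w (k + 1)).2 with g | g | g
      · rw [show (w (k + 1)).2 = (w k).2 + 1 by omega, uIcc_of_le (t2 (Nat.le_succ _))] at hσ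
        linarith [b.2 σ hσ]
      · rw [← g, uIcc_self, mem_singleton_iff] at hσ
        rw [hσ, dist_self]
        linarith
      · have b1 := b.1
        rw [show (w k).2 - 1 + 1 = (w k).2 by omega, show (w k).2 - 1 = (w (k + 1)).2 by omega] at b1
        rw [uIcc_of_ge (t2 g.le)] at hσ
        have := b1 σ hσ
        have := b1 _ ⟨t2 g.le, le_rfl⟩
        linarith [dist_triangle_right (l σ) (l (t (w k).2)) (l (t (w (k + 1)).2))]
    have h := dist_triangle4 (l σ) (l (t (w k).2)) (j (q (w k).2)) (j (f (a (w k).1)))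
    rw [dist_comm (j (q (w k).2))] at h
    simp only [Function.comp] at *
    linarith

theorem main {M : Type} [MetricSpace M] [CompactSpace M] [ConnectedSpace M] (hM : SZ M) {X : Type}
    [MetricSpace X] [CompactSpace X] [ConnectedSpace X] {f : X → M} (hf : Continuous f)
    (hf' : Function.Surjective f) {Y : Type} [MetricSpace Y] [CompactSpace Y] {j : M → Y}
    (hj : IsEmbedding j) (hd : Dense (range j)ᶜ) (e : ↥((range j)ᶜ) ≃ₜ ↥(Ici (0 : ℝ))) :
    ∃ (W : Type) (_ : MetricSpace W) (_ : CompactSpace W) (i : X → W),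
      IsEmbedding i ∧ Dense (range i)ᶜ ∧ Nonempty (↥((range i)ᶜ) ≃ₜ ↥(Ici (0 : ℝ))) ∧
      ∃ F : W → Y, Continuous F ∧ Function.Surjective F ∧ ∀ x, F (i x) = j (f x) := by
  let l : ℝ → Y := fun t => (e.symm ⟨max t 0, mem_Ici.2 (le_max_right t 0)⟩).1
  have hl : Continuous l := continuous_subtype_val.comp (e.symm.continuous.comp
    ((continuous_id.max continuous_const).subtype_mk _))
  have l2 : ∀ y : ↥((range j)ᶜ), l (e y) = y := fun y => by
    have : (⟨max (e y).1 0, mem_Ici.2 (le_max_right _ 0)⟩ : Ici (0 : ℝ)) = e y := Subtype.ext (max_eq_left (e y).2)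
    simp only [l, this, e.symm_apply_apply]
  have l3 : ∀ r > 0, ∀ᶠ t in atTop, ∃ m, dist (l t) (j m) < r := by
    intro r hr
    have : IsCompact (Subtype.val ⁻¹' (thickening r (range j))ᶜ : Set ↥((range j)ᶜ)) :=
      IsInducing.subtypeVal.isCompact_preimage_iff (by
        rw [Subtype.range_coe]
        exact compl_subset_compl.2 (self_subset_thickening hr _)) |>.2
        isOpen_thickening.isClosed_compl.isCompact
    obtain ⟨B, hB⟩ := (this.image (continuous_subtype_val.comp e.continuous)).bddAbove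
    filter_upwards [eventually_gt_atTop B] with t ht
    by_contra g
    have := hB ⟨e.symm ⟨max t 0, mem_Ici.2 (le_max_right t 0)⟩, fun h => by
      obtain ⟨_, ⟨m, rfl⟩, h⟩ := mem_thickening_iff.1 h
      exact g ⟨m, h⟩, rfl⟩
    simp only [Function.comp, e.apply_symm_apply] at this
    linarith [le_max_left t 0]
  have l4 : ∀ m, ∀ r > 0, ∀ T, ∃ t, T ≤ t ∧ dist (j m) (l t) < r := by
    intro m r hr T
    obtain ⟨y, ⟨a, b⟩, c⟩ := hd.inter_open_nonempty _ (isOpen_ball.sdiff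
      ((isCompact_Icc (a := (0 : ℝ)) (b := T)).image hl).isClosed) ⟨j m, mem_ball_self hr, by
        rintro ⟨t, -, h⟩
        exact (e.symm ⟨max t 0, mem_Ici.2 (le_max_right t 0)⟩).2 ⟨m, h.symm⟩⟩
    refine ⟨e ⟨y, c⟩, not_lt.1 fun g => b ⟨_, ⟨(e ⟨y, c⟩).2, g.le⟩, l2 _⟩, ?_⟩
    rw [l2, dist_comm]
    exact a
  obtain ⟨x, s, x1, x2, s1, s2, s3⟩ := seqs hM hf hf' hj hl l3 l4
  have hκ := kuratowskiEmbedding.isometry X
  set κ := kuratowskiEmbedding X
  obtain ⟨I, i1, i2⟩ := interp fun k => (κ (x (k - 1)), if k = 0 then 0 else s (k - 1))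
  have i3 : ∀ (k : ℕ) (τ : ℝ), (k + 1 : ℕ) ≤ τ → τ ≤ (k + 1 : ℕ) + 1 →
      dist (I τ).1 (κ (x k)) ≤ dist (x k) (x (k + 1)) ∧ (I τ).2 ∈ uIcc (s k) (s (k + 1)) := by
    intro k τ a b
    rw [i2 (k + 1) τ a b]
    simp only [Nat.add_sub_cancel, Nat.succ_ne_zero, if_false, Prod.fst_add, Prod.snd_add, Prod.smul_fst,
      Prod.smul_snd, Prod.fst_sub, Prod.snd_sub]
    constructor
    · rw [dist_self_add_left, norm_smul, ← dist_eq_norm (κ _), hκ.dist_eq, dist_comm, Real.norm_eq_abs,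
        abs_of_nonneg (by linarith)]
      exact mul_le_of_le_one_left dist_nonneg (by linarith)
    · rw [← segment_eq_uIcc, segment_eq_image']
      exact ⟨_, ⟨by linarith, by linarith⟩, rfl⟩
  have i4 : ∀ {P : ℕ → Prop}, (∀ᶠ k in atTop, P k) → ∀ᶠ τ : ℝ in atTop, ∃ k : ℕ, P k ∧
      dist (I τ).1 (κ (x k)) ≤ dist (x k) (x (k + 1)) ∧ (I τ).2 ∈ uIcc (s k) (s (k + 1)) := by
    intro P h
    filter_upwards [((tendsto_sub_atTop_nat 1).comp tendsto_nat_floor_atTop).eventually h,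
      eventually_ge_atTop 1] with τ a b
    have : ⌊τ⌋₊ - 1 + 1 = ⌊τ⌋₊ := Nat.sub_add_cancel (Nat.le_floor (by simpa using b))
    exact ⟨⌊τ⌋₊ - 1, a, i3 _ τ (by rw [this]; exact Nat.floor_le (by linarith))
      (by rw [this]; exact (Nat.lt_floor_add_one τ).le)⟩
  have near : ∀ r > 0, ∀ᶠ τ : ℝ in atTop, ∃ k, dist (I τ).1 (κ (x k)) < r ∧
      dist (l (I τ).2) (j (f (x k))) < r := by
    intro r hr
    filter_upwards [i4 ((x1.eventually (gt_mem_nhds hr)).and (s3 r hr))] with τ ⟨k, ⟨a, b⟩, c, d⟩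
    exact ⟨k, c.trans_lt a, b _ d⟩
  have sm : ∀ r > 0, ∀ᶠ τ : ℝ in atTop, dist (1 / (τ + 1)) 0 < r := fun r hr =>
    Metric.tendsto_nhds.1 (tendsto_const_nhds.div_atTop (tendsto_atTop_add_const_right _ 1 tendsto_id))
      r hr
  obtain ⟨a1, i, a2, a3, a4, a5⟩ := assemble (i0 := fun y => (κ y, (0 : ℝ), j (f y)))
    (Γ := fun τ => ((I τ).1, 1 / (τ + 1), l (I τ).2)) (h := fun p => p.2.1)
    (hκ.continuous.prodMk (continuous_const.prodMk (hj.continuous.comp hf)))
    (fun a b h => hκ.injective (congrArg Prod.fst h))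
    (i1.fst.continuousOn.prodMk (ContinuousOn.prodMk (continuousOn_const.div (by fun_prop)
      fun τ hτ => by have : (0 : ℝ) ≤ τ := hτ; positivity) (hl.comp i1.snd).continuousOn))
    (by fun_prop) (fun _ => rfl) (fun _ _ => rfl) (fun r hr => by
      filter_upwards [near r hr, sm r hr] with τ ⟨k, a, b⟩ c
      exact ⟨x k, max_lt a (max_lt c b)⟩) (fun y r hr => by
      obtain ⟨δ, d0, hδ⟩ := Metric.continuous_iff.1 (hj.continuous.comp hf) y _ (half_pos hr)
      obtain ⟨N, hN⟩ := eventually_atTop.1 ((s3 _ (half_pos hr)).and (((tendsto_natCast_atTop_atTop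
        (R := ℝ)).comp (tendsto_add_atTop_nat 1)).eventually (sm r hr)))
      obtain ⟨k, a, b⟩ := x2 y (min δ r) (by positivity) N
      obtain ⟨c, d⟩ := hN k a
      have g : I (k + 1 : ℕ) = (κ (x k), s k) := by
        rw [i2 (k + 1) _ le_rfl (by linarith)]
        simp
      refine ⟨(k + 1 : ℕ), by positivity, max_lt ?_ (max_lt (by rwa [dist_comm]) ?_)⟩
      · simp only [g, hκ.dist_eq]
        exact b.trans_le (min_le_right _ _)
      · simp only [g]
        have := hδ (x k) (by rw [dist_comm]; exact b.trans_le (min_le_left _ _))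
        have := c _ left_mem_uIcc
        have h := dist_triangle_left (j (f y)) (l (s k)) (j (f (x k)))
        simp only [Function.comp] at *
        rw [dist_comm (j (f (x k))) (l (s k))] at h
        linarith)
  refine ⟨_, inferInstance, isCompact_iff_compactSpace.1 a1, i, a3, a4, a5, fun w => w.1.2.2,
    by fun_prop, fun y => ?_, fun y => congrArg (fun p => p.2.2) (a2 y)⟩
  by_cases g : y ∈ range j
  · obtain ⟨m, rfl⟩ := g
    obtain ⟨z, rfl⟩ := hf' m
    exact ⟨⟨_, Or.inl ⟨z, rfl⟩⟩, rfl⟩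
  · obtain ⟨τ, a, k, b, -, c⟩ := ((eventually_ge_atTop (0 : ℝ)).and (i4 ((s2.eventually_ge_atTop
      (e ⟨y, g⟩).1).and ((s2.comp (tendsto_add_atTop_nat 1)).eventually_ge_atTop (e ⟨y, g⟩).1)))).exists
    have i0 : (I 0).2 = 0 := by
      rw [i2 0 0 (by simp) (by simp)]
      simp
    obtain ⟨σ, d, h⟩ := intermediate_value_Icc a i1.snd.continuousOn
      (show (e ⟨y, g⟩).1 ∈ Icc (I 0).2 (I τ).2 from ⟨i0.le.trans (e ⟨y, g⟩).2, (le_min b.1 b.2).trans c.1⟩)
    refine ⟨⟨_, Or.inr ⟨σ, d.1, rfl⟩⟩, ?_⟩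
    show l (I σ).2 = y
    rw [show (I σ).2 = _ from h, l2]

end Pool.Agent.H.MP_3ef9ff_gt
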